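import Pool.Agent.Helper46.QF.CentQ
import Pool.Agent.Helper43.QK.Inst

/-!
PROJECT AUT (MP_19fde8_al, S00834), block A: the fields `faithO` and `centQ` of `LFacts` for the generic instances
(`W = QHom M R`, `Q = QHom M Rp`, `O = MMˣ`, `o • w = w ∘ o⁻¹`).
-/

set_option autoImplicit false

namespace QF46

open QA70

/-- field `faithO` -/
theorem field_faithO (o : OO) (h : ∀ w : QHom M R, o • w = w) : o = 1 := by
  have h1 : o⁻¹ = 1 := faithO o⁻¹ h
  exact inv_eq_one.1 h1

/-- elements of `MM` restricting to `1` act trivially on `QHom M Rp` -/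
theorem comp_of_resM {u : MM} (hu : resM u = 1) (y : QHom M Rp) : y.comp u = y := by
  apply toP.injective
  rw [toP_comp, hu]
  exact QHom.comp_id _

/-- field `centQ` -/
theorem field_centQ (hspan : AddSubgroup.closure (Set.range (Units.val : MMˣ → MM)) = ⊤) (o : OO)
    (h : ∀ (x : OO) (y : QHom M Rp), o • x • y = x • o • y) (y : QHom M Rp) : o • y = y := by
  rw [aut_smul_def]
  apply comp_of_resM
  apply centQ_of hspan
  intro x y
  have h2 := h x⁻¹ (toP.symm y)
  rw [aut_smul_def, aut_smul_def, aut_smul_def, aut_smul_def, inv_inv] at h2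
  have h3 := congrArg toP h2
  rw [toP_comp, toP_comp, toP_comp, toP_comp, toP.apply_symm_apply] at h3
  exact h3

end QF46
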