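import Pool.Agent.Helper46.QF.Free

/-!
PROJECT AUT (MP_19fde8_al, S00834), block A: coinvariants and invariants of the units of `MM` on `QHom M N`.
-/

set_option autoImplicit false

namespace QF46

open QA70

/-! ### elementary maps of `V` -/

/-- `e_a ↦ e_b`, the other basis vectors to `0` -/
def el (b a : Fin 4) : V →ₗ[k] V := FM.single b ∘ₗ FM.proj a

theorem el_apply (b a : Fin 4) (v : V) : el b a v = FM.single b (FM.proj a v) := rfl

theorem el_el_ne {a b c d : Fin 4} (h : a ≠ d) : (el b a) ∘ₗ (el d c) = 0 := by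
  ext v
  rw [LinearMap.comp_apply, el_apply, el_apply, FM.proj_single_ne h, map_zero]
  rfl

theorem el_el_same (a b c : Fin 4) : (el c b) ∘ₗ (el b a) = el c a := by
  ext v
  rw [LinearMap.comp_apply, el_apply, el_apply, FM.proj_single_same]
  rfl

theorem sum_el : ∑ a, el a a = LinearMap.id := by
  ext v
  rw [LinearMap.sum_apply]
  exact FM.sum_single v

theorem ex_ne (a : Fin 4) : ∃ b : Fin 4, a ≠ b := by
  by_cases h : a = 0
  · exact ⟨1, by rw [h]; decide⟩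
  · exact ⟨0, h⟩

theorem lin_top {A : FM} (Q : AddSubgroup (V →ₗ[k] A))
    (h : ∀ (g : V →ₗ[k] A) (a b : Fin 4), a ≠ b → g ∘ₗ el b a ∈ Q) (g : V →ₗ[k] A) : g ∈ Q := by
  have h1 : g = ∑ a, g ∘ₗ el a a := by
    ext v
    rw [LinearMap.sum_apply]
    have h2 := LinearMap.congr_fun sum_el v
    rw [LinearMap.sum_apply] at h2
    conv_lhs => rw [show v = ∑ a, el a a v from h2.symm, map_sum]
    rfl
  rw [h1]
  refine AddSubgroup.sum_mem Q fun a _ => ?_
  obtain ⟨b, hb⟩ := ex_ne a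
  have h3 := h (g ∘ₗ el a b) a b hb
  rw [LinearMap.comp_assoc, el_el_same] at h3
  exact h3

theorem lin_zero {A : FM} (g : V →ₗ[k] A)
    (h : ∀ a b : Fin 4, a ≠ b → g ∘ₗ el b a = 0) : g = 0 := by
  have h1 : ∀ b, g ∘ₗ el b b = 0 := by
    intro b
    obtain ⟨a, ha⟩ := ex_ne b
    have h2 := h a b (Ne.symm ha)
    rw [← el_el_same b a b, ← LinearMap.comp_assoc, h2, LinearMap.zero_comp]
  ext v
  have h2 := LinearMap.congr_fun sum_el v
  rw [LinearMap.sum_apply] at h2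
  rw [show v = ∑ a, el a a v from h2.symm, map_sum]
  exact Finset.sum_eq_zero fun a _ => LinearMap.congr_fun (h1 a) v

/-! ### nilpotent endomorphisms of `M` -/

/-- `E` on `V_1` -/
noncomputable def n1 (E : V →ₗ[k] V) : MM := hm M E 0 0 0 0
/-- `E` on `V_2` -/
noncomputable def n2 (E : V →ₗ[k] V) : MM := hm M 0 (vM2 ∘ₗ E) 0 0 0
/-- `E` on `V_3` -/
noncomputable def n3 (E : V →ₗ[k] V) : MM := hm M 0 0 (vM3 ∘ₗ E) 0 0
/-- `E` on `V_4` -/
noncomputable def n4 (E : V →ₗ[k] V) : MM := hm M 0 0 0 E 0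
/-- `v_0 ↦ m` -/
noncomputable def n0 (m : M0) : MM := hm M 0 0 0 0 m

section
variable {N : QRep} (w : QHom M N)

theorem comp_n1 (E : V →ₗ[k] V) : w.comp (n1 E) = hm N (w.f1 ∘ₗ E) 0 0 0 0 := by
  rw [n1, comp_hm, map_zero]
  simp only [LinearMap.comp_zero]

theorem comp_n2 (E : V →ₗ[k] V) : w.comp (n2 E) = hm N 0 ((w.f2 ∘ₗ vM2) ∘ₗ E) 0 0 0 := by
  rw [n2, comp_hm, map_zero]
  simp only [LinearMap.comp_zero]
  rfl

theorem comp_n3 (E : V →ₗ[k] V) : w.comp (n3 E) = hm N 0 0 ((w.f3 ∘ₗ vM3) ∘ₗ E) 0 0 := by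
  rw [n3, comp_hm, map_zero]
  simp only [LinearMap.comp_zero]
  rfl

theorem comp_n4 (E : V →ₗ[k] V) : w.comp (n4 E) = hm N 0 0 0 (w.f4 ∘ₗ E) 0 := by
  rw [n4, comp_hm, map_zero]
  simp only [LinearMap.comp_zero]

theorem comp_n0 (m : M0) : w.comp (n0 m) = hm N 0 0 0 0 (w.f0 m) := by
  rw [n0, comp_hm]
  simp only [LinearMap.comp_zero]

end

theorem n1_sq {E : V →ₗ[k] V} (hE : E ∘ₗ E = 0) : n1 E * n1 E = 0 := by
  rw [QHom.mul_def, comp_n1]
  show hm M (E ∘ₗ E) 0 0 0 0 = 0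
  rw [hE, hm_zero]

theorem n2_sq {E : V →ₗ[k] V} (hE : E ∘ₗ E = 0) : n2 E * n2 E = 0 := by
  rw [QHom.mul_def, comp_n2]
  have h : ((n2 E).f2 ∘ₗ vM2) ∘ₗ E = 0 := by
    ext v
    show (n2 E).f2 (vM2 (E v)) = 0
    rw [n2, hm_f2_v]
    show vM2 ((E ∘ₗ E) v) = 0
    rw [hE]
    exact map_zero _
  rw [h, hm_zero]

theorem n3_sq {E : V →ₗ[k] V} (hE : E ∘ₗ E = 0) : n3 E * n3 E = 0 := by
  rw [QHom.mul_def, comp_n3]
  have h : ((n3 E).f3 ∘ₗ vM3) ∘ₗ E = 0 := by
    ext v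
    show (n3 E).f3 (vM3 (E v)) = 0
    rw [n3, hm_f3_v]
    show vM3 ((E ∘ₗ E) v) = 0
    rw [hE]
    exact map_zero _
  rw [h, hm_zero]

theorem n4_sq {E : V →ₗ[k] V} (hE : E ∘ₗ E = 0) : n4 E * n4 E = 0 := by
  rw [QHom.mul_def, comp_n4]
  show hm M 0 0 0 (E ∘ₗ E) 0 = 0
  rw [hE, hm_zero]

theorem n0_sq {m : M0} (hm' : (n0 m).f0 m = 0) : n0 m * n0 m = 0 := by
  rw [QHom.mul_def, comp_n0, hm', hm_zero]

theorem n0_lam (v : V) : (n0 (lamM v)).f0 (lamM v) = 0 := by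
  rw [(n0 (lamM v)).hlam v]
  show lamM ((0 : V →ₗ[k] V) v) = 0
  rw [LinearMap.zero_apply, map_zero]

/-- `1 + n` for `n² = 0` -/
def uOf (n : MM) (hn : n * n = 0) : MMˣ where
  val := 1 + n
  inv := 1 - n
  val_inv := by
    have : (1 + n) * (1 - n) = 1 - n * n := by noncomm_ring
    rw [this, hn, sub_zero]
  inv_val := by
    have : (1 - n) * (1 + n) = 1 - n * n := by noncomm_ring
    rw [this, hn, sub_zero]

theorem comp_uOf {N : QRep} (w : QHom M N) (n : MM) (hn : n * n = 0) :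
    w.comp (uOf n hn : MM) = w + w.comp n := by
  show w.comp (1 + n) = _
  rw [QHom.comp_add]
  congr 1

theorem el_sq {a b : Fin 4} (h : a ≠ b) : (el b a) ∘ₗ (el b a) = 0 := el_el_ne h

/-! ### coinvariants -/

/-- (1) every subgroup of `QHom M N` containing all `w ∘ o - w` is everything, if `lam` is surjective on `N`. -/
theorem coinv {N : QRep} (hlam : Function.Surjective N.lam) (P : AddSubgroup (QHom M N))
    (hP : ∀ (o : MMˣ) (w : QHom M N), w.comp (o : MM) - w ∈ P) : P = ⊤ := by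
  have key : ∀ (n : MM) (hn : n * n = 0) (w : QHom M N), w.comp n ∈ P := by
    intro n hn w
    have h := hP (uOf n hn) w
    rw [comp_uOf, add_sub_cancel_left] at h
    exact h
  have a1 : ∀ g : V →ₗ[k] N.U1, hm N g 0 0 0 0 ∈ P := by
    let F : (V →ₗ[k] N.U1) →+ QHom M N :=
      { toFun := fun g => hm N g 0 0 0 0
        map_zero' := hm_zero N
        map_add' := fun g g' => by
          have h := hm_add N g g' 0 0 0 0 0 0 0 0
          simpa only [add_zero] using h }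
    intro g
    refine lin_top (P.comap F) (fun g a b hab => ?_) g
    have h := key (n1 (el b a)) (n1_sq (el_sq hab)) (hm N g 0 0 0 0)
    rw [comp_n1] at h
    exact h
  have a2 : ∀ g : V →ₗ[k] N.U2, hm N 0 g 0 0 0 ∈ P := by
    let F : (V →ₗ[k] N.U2) →+ QHom M N :=
      { toFun := fun g => hm N 0 g 0 0 0
        map_zero' := hm_zero N
        map_add' := fun g g' => by
          have h := hm_add N 0 0 g g' 0 0 0 0 0 0
          simpa only [add_zero] using h }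
    intro g
    refine lin_top (P.comap F) (fun g a b hab => ?_) g
    have h := key (n2 (el b a)) (n2_sq (el_sq hab)) (hm N 0 g 0 0 0)
    rw [comp_n2] at h
    have e : (hm N 0 g 0 0 0).f2 ∘ₗ vM2 = g := by
      ext v
      exact hm_f2_v N 0 g 0 0 0 v
    rw [e] at h
    exact h
  have a3 : ∀ g : V →ₗ[k] N.U3, hm N 0 0 g 0 0 ∈ P := by
    let F : (V →ₗ[k] N.U3) →+ QHom M N :=
      { toFun := fun g => hm N 0 0 g 0 0
        map_zero' := hm_zero N
        map_add' := fun g g' => by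
          have h := hm_add N 0 0 0 0 g g' 0 0 0 0
          simpa only [add_zero] using h }
    intro g
    refine lin_top (P.comap F) (fun g a b hab => ?_) g
    have h := key (n3 (el b a)) (n3_sq (el_sq hab)) (hm N 0 0 g 0 0)
    rw [comp_n3] at h
    have e : (hm N 0 0 g 0 0).f3 ∘ₗ vM3 = g := by
      ext v
      exact hm_f3_v N 0 0 g 0 0 v
    rw [e] at h
    exact h
  have a4 : ∀ g : V →ₗ[k] N.U4, hm N 0 0 0 g 0 ∈ P := by
    let F : (V →ₗ[k] N.U4) →+ QHom M N :=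
      { toFun := fun g => hm N 0 0 0 g 0
        map_zero' := hm_zero N
        map_add' := fun g g' => by
          have h := hm_add N 0 0 0 0 0 0 g g' 0 0
          simpa only [add_zero] using h }
    intro g
    refine lin_top (P.comap F) (fun g a b hab => ?_) g
    have h := key (n4 (el b a)) (n4_sq (el_sq hab)) (hm N 0 0 0 g 0)
    rw [comp_n4] at h
    exact h
  have a0 : ∀ x : N.U0, hm N 0 0 0 0 x ∈ P := by
    intro x
    obtain ⟨y, rfl⟩ := hlam x
    let g : V →ₗ[k] N.U1 := LinearMap.toSpanSingleton k N.U1 y ∘ₗ FM.toK ∘ₗ FM.proj 0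
    have h := key (n0 (lamM (eV 0))) (n0_sq (n0_lam _)) (hm N g 0 0 0 0)
    rw [comp_n0, (hm N g 0 0 0 0).hlam] at h
    have e : (hm N g 0 0 0 0).f1 (eV 0) = y := by
      show (FM.toK (FM.proj 0 (FM.single 0 (FM.ofK 1)))) • y = y
      rw [FM.proj_single_same]
      exact one_smul k y
    rw [e] at h
    exact h
  rw [eq_top_iff]
  intro w _
  rw [eq_hm w]
  have h5 : hm N w.f1 (w.f2 ∘ₗ vM2) (w.f3 ∘ₗ vM3) w.f4 (w.f0 (vM0 (FM.ofK 1))) =
      hm N w.f1 0 0 0 0 + hm N 0 (w.f2 ∘ₗ vM2) 0 0 0 + hm N 0 0 (w.f3 ∘ₗ vM3) 0 0 +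
        hm N 0 0 0 w.f4 0 + hm N 0 0 0 0 (w.f0 (vM0 (FM.ofK 1))) := by
    rw [← hm_add, ← hm_add, ← hm_add, ← hm_add]
    simp only [add_zero, zero_add]
  rw [h5]
  exact P.add_mem (P.add_mem (P.add_mem (P.add_mem (a1 _) (a2 _)) (a3 _)) (a4 _)) (a0 _)

/-! ### invariants -/

/-- the coefficient of `v_0` -/
noncomputable def eps (γ : MM) : k := FM.toK (FM.fst (γ.f0 (vM0 (FM.ofK 1))))

theorem hm2_zero (N : QRep) : hm2 N 0 0 0 = 0 := by
  apply M2_ext
  · intro v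
    rw [hm2_v]
    rfl
  · intro l v
    rw [hm2_b, LinearMap.zero_apply, map_zero]
    rfl
  · intro v
    rw [hm2_r, LinearMap.zero_apply, map_zero]
    rfl

theorem hm0_zero (N : QRep) (x : N.U0) (m : M0) : (hm N 0 0 0 0 x).f0 m = FM.toK (FM.fst m) • x := by
  obtain ⟨c, v, m, rfl⟩ := M0.cases m
  show hm0 N 0 0 0 x (M0.mk c v m) = FM.toK c • x
  rw [hm0_mk, hm2_zero, LinearMap.zero_apply, LinearMap.zero_apply, map_zero, map_zero, add_zero, add_zero]

/-- the `V_0`-coefficient as a linear map -/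
def cf : M0 →ₗ[k] k := FM.toK ∘ₗ FM.fst

theorem cf_mk (c : FM.K) (v : V) (m : M2) : cf (M0.mk c v m) = FM.toK c := rfl

theorem eps_eq (γ : MM) : eps γ = cf (γ.f0 (vM0 (FM.ofK 1))) := rfl

theorem cf_f0 (γ : MM) (m : M0) : cf (γ.f0 m) = cf m * eps γ := by
  have h : (FM.fst ∘ₗ γ.f0 : M0 →ₗ[k] FM.K) =
      (LinearMap.toSpanSingleton k FM.K (FM.fst (γ.f0 (vM0 (FM.ofK 1))))) ∘ₗ cf := by
    apply M0_ext
    · show FM.fst (γ.f0 (vM0 (FM.ofK 1))) = (1 : k) • FM.fst (γ.f0 (vM0 (FM.ofK 1)))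
      rw [one_smul]
    · intro v
      show FM.fst (γ.f0 (lamM v)) = cf (lamM v) • FM.fst (γ.f0 (vM0 (FM.ofK 1)))
      rw [γ.hlam v]
      show (0 : FM.K) = (0 : k) • _
      rw [zero_smul]
    · intro m
      show FM.fst (γ.f0 (alM m)) = cf (alM m) • FM.fst (γ.f0 (vM0 (FM.ofK 1)))
      rw [γ.hal m]
      show (0 : FM.K) = (0 : k) • _
      rw [zero_smul]
  exact congrArg FM.toK (LinearMap.congr_fun h m)

theorem fst_f0 (γ : MM) (m : M0) : FM.toK (FM.fst (γ.f0 m)) = FM.toK (FM.fst m) * eps γ := cf_f0 γ m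

theorem eps_mul (γ δ : MM) : eps (γ * δ) = eps γ * eps δ := by
  show FM.toK (FM.fst (γ.f0 (δ.f0 (vM0 (FM.ofK 1))))) = _
  rw [fst_f0, mul_comm]
  rfl

theorem eps_one : eps 1 = 1 := rfl

theorem eps_unit (o : MMˣ) : eps (o : MM) = 1 := by
  have h : eps (o : MM) * eps ((o⁻¹ : MMˣ) : MM) = 1 := by
    rw [← eps_mul, Units.mul_inv, eps_one]
  have h2 : ∀ x y : ZMod 2, x * y = 1 → x = 1 := by decide
  exact h2 _ _ h

theorem fixed_of {N : QRep} (x : N.U0) (o : MMˣ) : (hm N 0 0 0 0 x).comp (o : MM) = hm N 0 0 0 0 x := by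
  apply M_ext
  · show (hm N 0 0 0 0 x).f0 ((o : MM).f0 (vM0 (FM.ofK 1))) = (hm N 0 0 0 0 x).f0 (vM0 (FM.ofK 1))
    rw [hm0_zero, hm0_zero, fst_f0, eps_unit, mul_one]
  · intro v
    rfl
  · intro v
    show hm2 N 0 0 0 _ = hm2 N 0 0 0 _
    rw [hm2_zero]
    rfl
  · intro v
    have h3 : hm3 N 0 0 0 0 = 0 := by
      apply M3_ext
      · intro v
        rw [hm3_v]
        rfl
      · intro i j v
        rw [hm3_a, LinearMap.zero_apply, map_zero]
        rfl
      · intro i j v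
        rw [hm3_c, hm2_zero, LinearMap.zero_apply, map_zero]
        rfl
      · intro i v
        rw [hm3_u, LinearMap.zero_apply, map_zero]
        rfl
    show hm3 N 0 0 0 0 _ = hm3 N 0 0 0 0 _
    rw [h3]
    rfl
  · intro v
    rfl

/-- (1) the invariants are the homomorphisms supported on `v_0`. -/
theorem fixed_iff {N : QRep} (w : QHom M N) :
    (∀ o : MMˣ, w.comp (o : MM) = w) ↔ ∃ x : N.U0, w = hm N 0 0 0 0 x := by
  constructor
  · intro hw
    have key : ∀ (n : MM) (hn : n * n = 0), w.comp n = 0 := by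
      intro n hn
      have h := hw (uOf n hn)
      rw [comp_uOf] at h
      exact left_eq_add.1 h.symm
    refine ⟨w.f0 (vM0 (FM.ofK 1)), ?_⟩
    have e1 : w.f1 = 0 := by
      refine lin_zero _ fun a b hab => ?_
      have h := key _ (n1_sq (el_sq hab))
      rw [comp_n1] at h
      exact congrArg QHom.f1 h
    have e2 : w.f2 ∘ₗ vM2 = 0 := by
      refine lin_zero _ fun a b hab => ?_
      have h := key _ (n2_sq (el_sq hab))
      rw [comp_n2] at h
      ext v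
      have h3 := congrArg (fun f : QHom M N => f.f2 (vM2 v)) h
      exact (hm_f2_v N 0 _ 0 0 0 v).symm.trans h3
    have e3 : w.f3 ∘ₗ vM3 = 0 := by
      refine lin_zero _ fun a b hab => ?_
      have h := key _ (n3_sq (el_sq hab))
      rw [comp_n3] at h
      ext v
      have h3 := congrArg (fun f : QHom M N => f.f3 (vM3 v)) h
      exact (hm_f3_v N 0 0 _ 0 0 v).symm.trans h3
    have e4 : w.f4 = 0 := by
      refine lin_zero _ fun a b hab => ?_
      have h := key _ (n4_sq (el_sq hab))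
      rw [comp_n4] at h
      exact congrArg QHom.f4 h
    conv_lhs => rw [eq_hm w, e1, e2, e3, e4]
  · rintro ⟨x, rfl⟩ o
    exact fixed_of x o

end QF46
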