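import Pool.Agent.Helper46.QF.Cogen

/-!
PROJECT AUT (MP_19fde8_al, S00834), block A: `centQ`: a unit of `MM` whose action on `QHom Mp Rp` commutes with
the action of all units acts trivially.
-/

set_option autoImplicit false

namespace QF46

open QA70

theorem sub_comp' {A B C : QRep} (g : QHom B C) (x y : QHom A B) (h : g.comp x = g.comp y) : g.comp (x - y) = 0 := by
  have h1 : g.comp (x - y) + g.comp y = g.comp x := by
    rw [← QHom.comp_add, sub_add_cancel]
  rw [h] at h1
  exact add_eq_right.1 h1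

theorem smul_inj {A : FM} {x : A} (hx : x ≠ 0) {s t : k} (h : s • x = t • x) : s = t := by
  have h2 : ∀ s t : ZMod 2, s ≠ t → s - t = 1 := by decide
  by_contra hst
  have h3 : (s - t) • x = 0 := by rw [sub_smul, h, sub_self]
  rw [h2 s t hst, one_smul] at h3
  exact hx h3

/-- the key computation -/
theorem cent_key (hspan : AddSubgroup.closure (Set.range (Units.val : MMˣ → MM)) = ⊤) (d : QHom Mp Mp)
    (h : ∀ x : MMˣ, resM (x : MM) * d = d * resM (x : MM)) : ∃ c : k, d = c • 1 := by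
  have hall : ∀ γ : MM, resM γ * d = d * resM γ := by
    intro γ
    have hγ : γ ∈ AddSubgroup.closure (Set.range (Units.val : MMˣ → MM)) := by
      rw [hspan]
      exact AddSubgroup.mem_top γ
    refine AddSubgroup.closure_induction (p := fun γ _ => resM γ * d = d * resM γ) ?_ ?_ ?_ ?_ hγ
    · rintro _ ⟨o, rfl⟩
      exact h o
    · rw [map_zero, zero_mul, mul_zero]
    · intro x y _ _ hx hy
      rw [map_add, add_mul, mul_add, hx, hy]
    · intro x _ hx
      rw [map_neg, neg_mul, mul_neg, hx]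
  let s1 : k := FM.toK (FM.proj 0 (d.f1 (eV 0)))
  let s2 : k := FM.toK (FM.proj 0 (FM.fst (d.f2 (vM2 (eV 0)))))
  let s3 : k := FM.toK (FM.proj 0 (FM.fst (d.f3 (vM3 (eV 0)))))
  let s4 : k := FM.toK (FM.proj 0 (d.f4 (eV 0)))
  have e1 : ∀ v : V, d.f1 v = s1 • v := by
    intro v
    have h1 := LinearMap.congr_fun (congrArg QHom.f1 (hall (pt1 M v))) (eV 0)
    have h2 : tv v (d.f1 (eV 0)) = d.f1 (tv v (eV 0)) := h1
    rw [tv_e] at h2
    exact h2.symm
  have e4 : ∀ v : V, d.f4 v = s4 • v := by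
    intro v
    have h1 := LinearMap.congr_fun (congrArg QHom.f4 (hall (pt4 M v))) (eV 0)
    have h2 : tv v (d.f4 (eV 0)) = d.f4 (tv v (eV 0)) := h1
    rw [tv_e] at h2
    exact h2.symm
  have e2 : ∀ m : M2, d.f2 m = s2 • m := by
    intro m
    have h1 := LinearMap.congr_fun (congrArg QHom.f2 (hall (pt2 M m))) (vM2 (eV 0))
    have h2 : hm2 M 0 (tv m) 0 (d.f2 (vM2 (eV 0))) = d.f2 ((pt2 M m).f2 (vM2 (eV 0))) := h1
    rw [pt2_f2] at h2
    rw [← h2]
    have h3 : ∀ y : M2, hm2 M 0 (tv m) 0 y = FM.toK (FM.proj 0 (FM.fst y)) • m := by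
      intro y
      have h4 : hm2 M 0 (tv m) 0 = tv m ∘ₗ FM.fst := by
        apply M2_ext
        · intro v
          rw [hm2_v]
          rfl
        · intro l v
          rw [hm2_b, LinearMap.zero_apply, map_zero]
          exact (map_zero (tv m)).symm
        · intro v
          rw [hm2_r, LinearMap.zero_apply, map_zero]
          exact (map_zero (tv m)).symm
      exact LinearMap.congr_fun h4 y
    exact h3 _
  have e3 : ∀ m : M3, d.f3 m = s3 • m := by
    intro m
    have h1 := LinearMap.congr_fun (congrArg QHom.f3 (hall (pt3 M m))) (vM3 (eV 0))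
    have h2 : hm3 M 0 0 (tv m) 0 (d.f3 (vM3 (eV 0))) = d.f3 ((pt3 M m).f3 (vM3 (eV 0))) := h1
    rw [pt3_f3] at h2
    rw [← h2]
    have h3 : ∀ y : M3, hm3 M 0 0 (tv m) 0 y = FM.toK (FM.proj 0 (FM.fst y)) • m := by
      intro y
      have h4 : hm3 M 0 0 (tv m) 0 = tv m ∘ₗ FM.fst := by
        apply M3_ext
        · intro v
          rw [hm3_v]
          rfl
        · intro i j v
          rw [hm3_a, LinearMap.zero_apply, map_zero]
          exact (map_zero (tv m)).symm
        · intro i j v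
          rw [hm3_c, hm2_zero, LinearMap.zero_apply, map_zero]
          exact (map_zero (tv m)).symm
        · intro i v
          rw [hm3_u, LinearMap.zero_apply, map_zero]
          exact (map_zero (tv m)).symm
      exact LinearMap.congr_fun h4 y
    exact h3 _
  have hb : bM 0 (eV 0) ≠ 0 := by
    intro h0
    exact eV_ne 0 (bM_injective 0 (h0.trans (map_zero (bM 0)).symm))
  have hr : rM (eV 0) ≠ 0 := by
    intro h0
    exact eV_ne 0 (congrArg ((FM.snd ∘ₗ FM.snd : M2 →ₗ[k] V)) h0)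
  have hc : cM 0 0 (bM 0 (eV 0)) ≠ 0 := by
    intro h0
    have h1 : FM.single ((0 : Fin dd), (0 : Fin 2)) (bM 0 (eV 0)) = 0 :=
      congrArg ((FM.fst ∘ₗ FM.snd ∘ₗ FM.snd : M3 →ₗ[k] FM.pow (Fin dd × Fin 2) M2)) h0
    exact hb (FM.single_eq_zero.1 h1)
  have h12 : s2 = s1 := by
    have h1 := d.hb 0 (eV 0)
    rw [e1] at h1
    have h2 : d.f2 (bM 0 (eV 0)) = bM 0 (s1 • eV 0) := h1
    rw [e2, map_smul] at h2
    exact smul_inj hb h2
  have h24 : s2 = s4 := by
    have h1 := d.hr (eV 0)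
    rw [e4] at h1
    have h2 : d.f2 (rM (eV 0)) = rM (s4 • eV 0) := h1
    rw [e2, map_smul] at h2
    exact smul_inj hr h2
  have h23 : s3 = s2 := by
    have h1 := d.hc 0 0 (bM 0 (eV 0))
    have h2 : d.f3 (cM 0 0 (bM 0 (eV 0))) = cM 0 0 (d.f2 (bM 0 (eV 0))) := h1
    rw [e2, e3, map_smul] at h2
    exact smul_inj hc h2
  refine ⟨s2, QHom.ext (FM.to_Z_eq _ _) ?_ ?_ ?_ ?_⟩
  · ext v
    rw [e1, ← h12]
    rfl
  · ext v
    rw [e2]
    rfl
  · ext v
    rw [e3, h23]
    rfl
  · ext v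
    rw [e4, ← h24]
    rfl

/-- `centQ`, right-action form -/
theorem centQ_of (hspan : AddSubgroup.closure (Set.range (Units.val : MMˣ → MM)) = ⊤) (o : MMˣ)
    (h : ∀ (x : MMˣ) (y : QHom Mp Rp),
      (y.comp (resM (x : MM))).comp (resM (o : MM)) = (y.comp (resM (o : MM))).comp (resM (x : MM))) :
    resM (o : MM) = 1 := by
  obtain ⟨c, hc⟩ := cent_key hspan (resM (o : MM)) (by
    intro x
    have h1 : resM (x : MM) * resM (o : MM) - resM (o : MM) * resM (x : MM) = 0 := by
      apply cogP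
      intro w
      exact sub_comp' w _ _ (h x w)
    exact sub_eq_zero.1 h1)
  have h2 : ∀ s : ZMod 2, s = 0 ∨ s = 1 := by decide
  rcases h2 c with h3 | h3
  · exfalso
    have h4 : resM (o : MM) = 0 := by rw [hc, h3, zero_smul]
    have h5 : (1 : QHom Mp Mp) = 0 := by
      have h6 : resM (o : MM) * resM ((o⁻¹ : MMˣ) : MM) = 1 := by
        rw [← map_mul, Units.mul_inv, map_one]
      rw [← h6, h4, zero_mul]
    have h7 := LinearMap.congr_fun (congrArg QHom.f1 h5) (eV 0)
    exact eV_ne 0 h7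
  · rw [hc, h3, one_smul]

end QF46
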