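import Pool.Agent.Helper46.QF.EndW
import Pool.Agent.Helper70.QA.Inj

/-!
PROJECT AUT (MP_19fde8_al, S00834), block A: `R` cogenerates `M`, `Rp` cogenerates `Mp`; `faithO`.
-/

set_option autoImplicit false

namespace QF46

open QA70

/-- `V_1 → R_1` (copy `0` of `T_1`) -/
noncomputable def c1 : V →ₗ[k] R1 := FM.inr ∘ₗ cp1 0 ∘ₗ FM.inl
/-- `M_2 → R_2` (copy `0` of `T_2`) -/
noncomputable def c2 : M2 →ₗ[k] R2 := FM.inr ∘ₗ cp2 0 ∘ₗ FM.inl
/-- `V_4 → R_4` (copy `0` of `T_4`) -/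
noncomputable def c4 : V →ₗ[k] R4 := FM.inr ∘ₗ cp4 0
/-- `M_3 → F_3` (copy `0`) -/
noncomputable def G3 : M3 →ₗ[k] F3 :=
  FM.lift (FM.pmap (cp4 0) ∘ₗ FM.snd ∘ₗ FM.snd ∘ₗ FM.snd)
    (FM.lift (FM.pmap (cp1 0 ∘ₗ FM.inl) ∘ₗ FM.fst ∘ₗ FM.snd)
      (FM.pmap (cp2 0 ∘ₗ FM.inl) ∘ₗ FM.fst ∘ₗ FM.snd ∘ₗ FM.snd))

theorem c1_apply (v : V) : c1 v = FM.mk 0 (cp1 0 (FM.mk v 0)) := rfl
theorem c2_apply (m : M2) : c2 m = FM.mk 0 (cp2 0 (Q2.mk m 0 0)) := rfl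
theorem c4_apply (v : V) : c4 v = FM.mk 0 (cp4 0 v) := rfl
theorem G3_mk (v : V) (x : FM.pow (Fin dd × Fin 2) V) (y : FM.pow (Fin dd × Fin 2) M2) (z : FM.pow (Fin dd) V) :
    G3 (M3.mk v x y z) = F3.mk (FM.pmap (cp4 0) z) (FM.pmap (cp1 0 ∘ₗ FM.inl) x)
      (FM.pmap (cp2 0 ∘ₗ FM.inl) y) := rfl

theorem c1_zero {v : V} (h : c1 v = 0) : v = 0 := by
  rw [c1_apply, FM.mk_eq_zero] at h
  have h2 : FM.mk v 0 = (0 : Q1) := FM.single_eq_zero.1 h.2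
  exact (FM.mk_eq_zero.1 h2).1

theorem c2_zero {m : M2} (h : c2 m = 0) : m = 0 := by
  rw [c2_apply, FM.mk_eq_zero] at h
  have h2 : Q2.mk m 0 0 = (0 : Q2) := FM.single_eq_zero.1 h.2
  exact (FM.mk_eq_zero.1 h2).1

theorem c4_zero {v : V} (h : c4 v = 0) : v = 0 := by
  rw [c4_apply, FM.mk_eq_zero] at h
  exact FM.single_eq_zero.1 h.2

theorem bR_c1 (l : Fin 3) (v : V) : bR l (c1 v) = c2 (bM l v) := by
  show FM.mk (T.dec l 0) (bT l (cp1 0 (FM.mk v 0))) = _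
  rw [map_zero, c2_apply]
  congr 1
  show FM.pmap (bQ l) (FM.single 0 (FM.mk v 0)) = _
  rw [FM.pmap_single, bQ_mk, map_zero]
  rfl

theorem rR_c4 (v : V) : rR (c4 v) = c2 (rM v) := by
  show FM.mk (rX 0) (rT (cp4 0 v)) = _
  rw [map_zero, c2_apply]
  congr 1
  show FM.pmap rQ (FM.single 0 v) = _
  rw [FM.pmap_single, rQ_apply]
  rfl

/-- a relation with support in copy `0` and no `V_3`-part is trivial -/
theorem G3_zero {m : M3} (h : mkT3 (G3 m) = 0) : G3 m = 0 := by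
  obtain ⟨m', hm⟩ := FM.mkq_eq_zero.1 h
  have h01 : (1 : Fin dd) ≠ 0 := by decide
  have h3 : cp1 1 (jQ (toMb.tot m')) = cp1 0 (FM.mk (FM.proj (1, 0) (FM.fst (FM.snd m))) 0) :=
    congrArg (fun y : F3 => FM.proj ((1 : Fin dd), (0 : Fin 2)) (FM.fst (FM.snd y))) hm
  have h4 : cp2 1 (i0 (M.pr0 m')) = cp2 0 (FM.mk (FM.proj (1, 1) (FM.fst (FM.snd (FM.snd m)))) 0) :=
    congrArg (fun y : F3 => FM.proj ((1 : Fin dd), (1 : Fin 2)) (FM.snd (FM.snd y))) hm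
  have h5 : jQ (toMb.tot m') = 0 := by
    have := congrArg (FM.proj (1 : Fin dd)) h3
    rw [cp1, cp1, FM.proj_single_same, FM.proj_single_ne h01] at this
    exact this
  have h6 : i0 (M.pr0 m') = 0 := by
    have := congrArg (FM.proj (1 : Fin dd)) h4
    rw [cp2, cp2, FM.proj_single_same, FM.proj_single_ne h01] at this
    exact this
  have h7 : m' = 0 := tot_eq_zero (jQ_injective (h5.trans (map_zero jQ).symm))
    (i0_injective (h6.trans (map_zero i0).symm))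
  rw [← hm, h7, map_zero]

theorem G3_eq_zero {v : V} {x : FM.pow (Fin dd × Fin 2) V} {y : FM.pow (Fin dd × Fin 2) M2}
    {z : FM.pow (Fin dd) V} (h : G3 (M3.mk v x y z) = 0) : x = 0 ∧ y = 0 ∧ z = 0 := by
  rw [G3_mk] at h
  have h1 := (FM.mk_eq_zero.1 h).1
  have h2 := (FM.mk_eq_zero.1 (FM.mk_eq_zero.1 h).2).1
  have h3 := (FM.mk_eq_zero.1 (FM.mk_eq_zero.1 h).2).2
  refine ⟨?_, ?_, ?_⟩
  · apply FM.pow_ext
    intro i
    have h4 := congrArg (FM.proj i) h2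
    rw [FM.proj_pmap, map_zero] at h4
    have h5 : FM.mk (FM.proj i x) 0 = (0 : Q1) := FM.single_eq_zero.1 h4
    rw [map_zero]
    exact (FM.mk_eq_zero.1 h5).1
  · apply FM.pow_ext
    intro i
    have h4 := congrArg (FM.proj i) h3
    rw [FM.proj_pmap, map_zero] at h4
    have h5 : FM.mk (FM.proj i y) 0 = (0 : Q2) := FM.single_eq_zero.1 h4
    rw [map_zero]
    exact (FM.mk_eq_zero.1 h5).1
  · apply FM.pow_ext
    intro i
    have h4 := congrArg (FM.proj i) h1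
    rw [FM.proj_pmap, map_zero] at h4
    rw [map_zero]
    exact FM.single_eq_zero.1 h4

/-! ### the maps `hm2 R`, `hm3 R` for the copy-`0` data -/

theorem hm2R : hm2 R c1 (c2 ∘ₗ vM2) c4 = c2 := by
  apply M2_ext
  · intro v
    rw [hm2_v]
    rfl
  · intro l v
    rw [hm2_b]
    exact bR_c1 l v
  · intro v
    rw [hm2_r]
    exact rR_c4 v

theorem hm3R (g : V →ₗ[k] T3) (m : M3) :
    hm3 R c1 (c2 ∘ₗ vM2) g c4 m = g (FM.fst m) + mkT3 (G3 m) := by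
  have h : hm3 R c1 (c2 ∘ₗ vM2) g c4 = g ∘ₗ FM.fst + mkT3 ∘ₗ G3 := by
    apply M3_ext
    · intro v
      rw [hm3_v]
      show g v = g v + mkT3 (G3 (M3.mk v 0 0 0))
      rw [G3_mk, map_zero, map_zero, map_zero]
      show g v = g v + mkT3 0
      rw [map_zero, add_zero]
    · intro i j v
      rw [hm3_a]
      show mkT3 (aF i j (cp1 0 (FM.mk v 0))) = g 0 + mkT3 (G3 (M3.mk 0 (FM.single (i, j) v) 0 0))
      rw [map_zero, zero_add, G3_mk, FM.pmap_single, aF_apply, map_zero, map_zero]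
      rfl
    · intro i j v
      rw [hm3_c, hm2R]
      show mkT3 (cF i j (cp2 0 (Q2.mk v 0 0))) = g 0 + mkT3 (G3 (M3.mk 0 0 (FM.single (i, j) v) 0))
      rw [map_zero, zero_add, G3_mk, FM.pmap_single, cF_apply, map_zero, map_zero]
      rfl
    · intro i v
      rw [hm3_u]
      show mkT3 (uF i (cp4 0 v)) = g 0 + mkT3 (G3 (M3.mk 0 0 0 (FM.single i v)))
      rw [map_zero, zero_add, G3_mk, FM.pmap_single, uF_apply, map_zero, map_zero]
  exact LinearMap.congr_fun h m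

theorem eV_ne (i : Fin 4) : eV i ≠ 0 := by
  intro h
  have h1 : (FM.ofK 1 : FM.K) = 0 := FM.single_eq_zero.1 h
  exact one_ne_zero (α := ZMod 2) h1

/-- `T_3` is not zero -/
theorem exists_T3 : ∃ t : T3, t ≠ 0 := by
  refine ⟨mkT3 (uF 0 (cp4 0 (eV 0))), fun h => ?_⟩
  have h1 : cp4 0 (eV 0) = 0 := uF_zero h
  exact eV_ne 0 (FM.single_eq_zero.1 h1)

/-- maps `V → A` separate points, if `A` is not zero -/
theorem sepV {A : FM} {t : A} (_ : t ≠ 0) (v : V) (hv : v ≠ 0) : ∃ g : V →ₗ[k] A, g v = t := by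
  have h1 : ∃ i, FM.proj i v ≠ 0 := by
    by_contra hcon
    push Not at hcon
    apply hv
    apply FM.pow_ext
    intro i
    rw [hcon i, map_zero]
  obtain ⟨i, hi⟩ := h1
  refine ⟨LinearMap.toSpanSingleton k A t ∘ₗ FM.toK ∘ₗ FM.proj i, ?_⟩
  show FM.toK (FM.proj i v) • t = t
  have h2 : ∀ x : ZMod 2, x ≠ 0 → x = 1 := by decide
  have h3 : FM.toK (FM.proj i v) = 1 := h2 _ hi
  rw [h3, one_smul]

/-- vertex `3` -/
theorem cog3 (m : M3) (h : ∀ g : V →ₗ[k] T3, hm3 R c1 (c2 ∘ₗ vM2) g c4 m = 0) : m = 0 := by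
  have h0 := h 0
  rw [hm3R, LinearMap.zero_apply, zero_add] at h0
  have hv : FM.fst m = 0 := by
    by_contra hv
    obtain ⟨t, ht⟩ := exists_T3
    obtain ⟨g, hg⟩ := sepV ht _ hv
    have h1 := h g
    rw [hm3R, h0, add_zero, hg] at h1
    exact ht h1
  obtain ⟨v, x, y, z, rfl⟩ : ∃ v x y z, m = M3.mk v x y z := ⟨_, _, _, _, rfl⟩
  obtain ⟨hx, hy, hz⟩ := G3_eq_zero (G3_zero h0)
  have hv' : v = 0 := hv
  rw [hx, hy, hz, hv']
  rfl

/-- vertex `0` -/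
theorem cog0 (m : M0) (h : ∀ w : QHom M R, w.f0 m = 0) : m = 0 := by
  obtain ⟨c, v, m, rfl⟩ := M0.cases m
  have h1 := h (hm R 0 0 0 0 (c1 (eV 0)))
  rw [hm0_zero] at h1
  have hc : c = 0 := by
    by_contra hc
    have h2 : ∀ x : ZMod 2, x ≠ 0 → x = 1 := by decide
    have h3 : FM.toK (FM.fst (M0.mk c v m)) = 1 := h2 _ hc
    rw [h3, one_smul] at h1
    exact eV_ne 0 (c1_zero h1)
  have h4 := h (hm R c1 (c2 ∘ₗ vM2) 0 c4 0)
  have h5 : FM.toK c • (0 : R1) + c1 v + alR (c2 m) = 0 := by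
    have h6 : (hm R c1 (c2 ∘ₗ vM2) 0 c4 0).f0 (M0.mk c v m) =
        FM.toK c • (0 : R1) + c1 v + alR (hm2 R c1 (c2 ∘ₗ vM2) c4 m) := rfl
    rw [hm2R] at h6
    rw [← h6, h4]
  rw [smul_zero, zero_add] at h5
  have h7 : (FM.mk 0 (cp1 0 (FM.mk v 0)) : R1) + FM.mk (j2 (cp2 0 (Q2.mk m 0 0))) 0 = 0 := h5
  rw [FM.mk_add_mk, zero_add, add_zero, FM.mk_eq_zero] at h7
  have hv : v = 0 := by
    have h8 : FM.mk v 0 = (0 : Q1) := FM.single_eq_zero.1 h7.2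
    exact (FM.mk_eq_zero.1 h8).1
  have hm' : m = 0 := by
    have h9 : T.in2 (cp2 0 (Q2.mk m 0 0)) = 0 := FM.single_eq_zero.1 h7.1
    have h10 : cp2 0 (Q2.mk m 0 0) = 0 := congrArg T.pr2 h9
    have h11 : Q2.mk m 0 0 = (0 : Q2) := FM.single_eq_zero.1 h10
    exact (FM.mk_eq_zero.1 h11).1
  rw [hc, hv, hm']
  rfl

/-- `R` cogenerates `M` -/
theorem cogM {A : QRep} (d : QHom A M) (h : ∀ w : QHom M R, w.comp d = 0) : d = 0 := by
  refine QHom.ext ?_ ?_ ?_ ?_ ?_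
  · ext x
    refine cog0 _ fun w => ?_
    exact LinearMap.congr_fun (congrArg QHom.f0 (h w)) x
  · ext x
    have h1 := LinearMap.congr_fun (congrArg QHom.f1 (h (hm R c1 0 0 0 0))) x
    exact c1_zero h1
  · ext x
    have h1 := LinearMap.congr_fun (congrArg QHom.f2 (h (hm R c1 (c2 ∘ₗ vM2) 0 c4 0))) x
    have h2 : hm2 R c1 (c2 ∘ₗ vM2) c4 (d.f2 x) = 0 := h1
    rw [hm2R] at h2
    exact c2_zero h2
  · ext x
    refine cog3 _ fun g => ?_
    exact LinearMap.congr_fun (congrArg QHom.f3 (h (hm R c1 (c2 ∘ₗ vM2) g c4 0))) x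
  · ext x
    have h1 := LinearMap.congr_fun (congrArg QHom.f4 (h (hm R 0 0 0 c4 0))) x
    exact c4_zero h1

/-- `faithO` -/
theorem faithO (o : MMˣ) (h : ∀ w : QHom M R, w.comp (o : MM) = w) : o = 1 := by
  have h1 : ((o : MM) - 1 : MM) = 0 := by
    apply cogM
    intro w
    have h2 : w.comp ((o : MM) - 1) + w = w.comp (o : MM) := by
      have h3 : w.comp ((o : MM) - 1) + w.comp 1 = w.comp (o : MM) := by
        rw [← QHom.comp_add, sub_add_cancel]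
      exact h3
    rw [h w] at h2
    exact add_eq_right.1 h2
  exact Units.ext (sub_eq_zero.1 h1)

/-- `Rp` cogenerates `Mp` -/
theorem cogP {A : QRep} (d : QHom A Mp) (h : ∀ w : QHom Mp Rp, w.comp d = 0) : d = 0 := by
  refine QHom.ext (FM.to_Z_eq _ _) ?_ ?_ ?_ ?_
  · ext x
    have h1 := LinearMap.congr_fun (congrArg QHom.f1 (h (toP (hm Rp c1 0 0 0 0)))) x
    exact c1_zero h1
  · ext x
    have h1 := LinearMap.congr_fun (congrArg QHom.f2 (h (toP (hm Rp c1 (c2 ∘ₗ vM2) 0 c4 0)))) x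
    have h2 : hm2 R c1 (c2 ∘ₗ vM2) c4 (d.f2 x) = 0 := h1
    rw [hm2R] at h2
    exact c2_zero h2
  · ext x
    refine cog3 _ fun g => ?_
    exact LinearMap.congr_fun (congrArg QHom.f3 (h (toP (hm Rp c1 (c2 ∘ₗ vM2) g c4 0)))) x
  · ext x
    have h1 := LinearMap.congr_fun (congrArg QHom.f4 (h (toP (hm Rp 0 0 0 c4 0)))) x
    exact c4_zero h1

end QF46
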