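import Pool.Agent.Helper46.QF.Coinv

/-!
PROJECT AUT (MP_19fde8_al, S00834), block A: endomorphisms of `QHom M N` and `QHom Mp Rp` commuting with `MM`.
-/

set_option autoImplicit false

namespace QF46

open QA70

/-- additive maps are linear over `k` -/
def toLin {A B : FM} (f : A →+ B) : A →ₗ[k] B := f.toZModLinearMap 2

theorem toLin_apply {A B : FM} (f : A →+ B) (x : A) : toLin f x = f x := rfl

/-- the map `V → A` with `e_0 ↦ x`, other basis vectors to `0` -/
noncomputable def tv {A : FM} (x : A) : V →ₗ[k] A := LinearMap.toSpanSingleton k A x ∘ₗ FM.toK ∘ₗ FM.proj 0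

theorem tv_e {A : FM} (x : A) : tv x (eV 0) = x := by
  show (FM.toK (FM.proj 0 (FM.single 0 (FM.ofK 1)))) • x = x
  rw [FM.proj_single_same]
  exact one_smul k x

theorem comp_tv {A B : FM} (f : A →ₗ[k] B) (x : A) : f ∘ₗ tv x = tv (f x) := by
  ext v
  show f ((FM.toK (FM.proj 0 v)) • x) = (FM.toK (FM.proj 0 v)) • f x
  rw [map_smul]

theorem tv_add {A : FM} (x y : A) : tv (x + y) = tv x + tv y := by
  ext v
  show (FM.toK (FM.proj 0 v)) • (x + y) = (FM.toK (FM.proj 0 v)) • x + (FM.toK (FM.proj 0 v)) • y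
  rw [smul_add]

section
variable (N : QRep)

/-- point homomorphisms -/
noncomputable def pt0 (x : N.U0) : QHom M N := hm N 0 0 0 0 x
/-- point homomorphisms -/
noncomputable def pt1 (x : N.U1) : QHom M N := hm N (tv x) 0 0 0 0
/-- point homomorphisms -/
noncomputable def pt2 (x : N.U2) : QHom M N := hm N 0 (tv x) 0 0 0
/-- point homomorphisms -/
noncomputable def pt3 (x : N.U3) : QHom M N := hm N 0 0 (tv x) 0 0
/-- point homomorphisms -/
noncomputable def pt4 (x : N.U4) : QHom M N := hm N 0 0 0 (tv x) 0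

theorem pt0_add (x y : N.U0) : pt0 N (x + y) = pt0 N x + pt0 N y := by
  have h := hm_add N 0 0 0 0 0 0 0 0 x y
  simp only [add_zero] at h
  exact h
theorem pt1_add (x y : N.U1) : pt1 N (x + y) = pt1 N x + pt1 N y := by
  have h := hm_add N (tv x) (tv y) 0 0 0 0 0 0 0 0
  rw [← tv_add] at h
  simp only [add_zero] at h
  exact h
theorem pt2_add (x y : N.U2) : pt2 N (x + y) = pt2 N x + pt2 N y := by
  have h := hm_add N 0 0 (tv x) (tv y) 0 0 0 0 0 0
  rw [← tv_add] at h
  simp only [add_zero] at h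
  exact h
theorem pt3_add (x y : N.U3) : pt3 N (x + y) = pt3 N x + pt3 N y := by
  have h := hm_add N 0 0 0 0 (tv x) (tv y) 0 0 0 0
  rw [← tv_add] at h
  simp only [add_zero] at h
  exact h
theorem pt4_add (x y : N.U4) : pt4 N (x + y) = pt4 N x + pt4 N y := by
  have h := hm_add N 0 0 0 0 0 0 (tv x) (tv y) 0 0
  rw [← tv_add] at h
  simp only [add_zero] at h
  exact h

theorem pt0_f0 (x : N.U0) : (pt0 N x).f0 (vM0 (FM.ofK 1)) = x := by
  rw [pt0, hm_f0_v]
  exact one_smul k x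
theorem pt1_f1 (x : N.U1) : (pt1 N x).f1 (eV 0) = x := tv_e x
theorem pt2_f2 (x : N.U2) : (pt2 N x).f2 (vM2 (eV 0)) = x := by rw [pt2, hm_f2_v, tv_e]
theorem pt3_f3 (x : N.U3) : (pt3 N x).f3 (vM3 (eV 0)) = x := by rw [pt3, hm_f3_v, tv_e]
theorem pt4_f4 (x : N.U4) : (pt4 N x).f4 (eV 0) = x := tv_e x

end

section
variable {N N' : QRep}

theorem comp_pt0 (w : QHom N N') (x : N.U0) : w.comp (pt0 N x) = pt0 N' (w.f0 x) := by
  rw [pt0, comp_hm]
  simp only [LinearMap.comp_zero]
  rfl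
theorem comp_pt1 (w : QHom N N') (x : N.U1) : w.comp (pt1 N x) = pt1 N' (w.f1 x) := by
  rw [pt1, comp_hm, comp_tv, map_zero]
  simp only [LinearMap.comp_zero]
  rfl
theorem comp_pt2 (w : QHom N N') (x : N.U2) : w.comp (pt2 N x) = pt2 N' (w.f2 x) := by
  rw [pt2, comp_hm, comp_tv, map_zero]
  simp only [LinearMap.comp_zero]
  rfl
theorem comp_pt3 (w : QHom N N') (x : N.U3) : w.comp (pt3 N x) = pt3 N' (w.f3 x) := by
  rw [pt3, comp_hm, comp_tv, map_zero]
  simp only [LinearMap.comp_zero]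
  rfl
theorem comp_pt4 (w : QHom N N') (x : N.U4) : w.comp (pt4 N x) = pt4 N' (w.f4 x) := by
  rw [pt4, comp_hm, comp_tv, map_zero]
  simp only [LinearMap.comp_zero]
  rfl

end

/-- (2) additive maps `QHom M N → QHom M N` commuting with `MM` are post-compositions. -/
theorem endo_of {N : QRep} (f : QHom M N →+ QHom M N)
    (hf : ∀ (γ : MM) (w : QHom M N), f (w.comp γ) = (f w).comp γ) :
    ∃ a : QHom N N, ∀ w, f w = a.comp w := by
  let a0 : N.U0 →ₗ[k] N.U0 := toLin
    { toFun := fun x => (f (pt0 N x)).f0 (vM0 (FM.ofK 1))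
      map_zero' := by
        have h : pt0 N 0 = 0 := hm_zero N
        rw [h, map_zero]
        rfl
      map_add' := fun x y => by
        rw [pt0_add, map_add]
        rfl }
  let a1 : N.U1 →ₗ[k] N.U1 := toLin
    { toFun := fun x => (f (pt1 N x)).f1 (eV 0)
      map_zero' := by
        have h : pt1 N 0 + pt1 N 0 = pt1 N 0 := by rw [← pt1_add, add_zero]
        rw [add_eq_left.1 h, map_zero]
        rfl
      map_add' := fun x y => by
        rw [pt1_add, map_add]
        rfl }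
  let a2 : N.U2 →ₗ[k] N.U2 := toLin
    { toFun := fun x => (f (pt2 N x)).f2 (vM2 (eV 0))
      map_zero' := by
        have h : pt2 N 0 + pt2 N 0 = pt2 N 0 := by rw [← pt2_add, add_zero]
        rw [add_eq_left.1 h, map_zero]
        rfl
      map_add' := fun x y => by
        rw [pt2_add, map_add]
        rfl }
  let a3 : N.U3 →ₗ[k] N.U3 := toLin
    { toFun := fun x => (f (pt3 N x)).f3 (vM3 (eV 0))
      map_zero' := by
        have h : pt3 N 0 + pt3 N 0 = pt3 N 0 := by rw [← pt3_add, add_zero]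
        rw [add_eq_left.1 h, map_zero]
        rfl
      map_add' := fun x y => by
        rw [pt3_add, map_add]
        rfl }
  let a4 : N.U4 →ₗ[k] N.U4 := toLin
    { toFun := fun x => (f (pt4 N x)).f4 (eV 0)
      map_zero' := by
        have h : pt4 N 0 + pt4 N 0 = pt4 N 0 := by rw [← pt4_add, add_zero]
        rw [add_eq_left.1 h, map_zero]
        rfl
      map_add' := fun x y => by
        rw [pt4_add, map_add]
        rfl }
  have e0 : ∀ (w : QHom M N) (m : M0), (f w).f0 m = a0 (w.f0 m) := by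
    intro w m
    have h := hf (pt0 M m) w
    rw [comp_pt0] at h
    have h2 := congrArg (fun g : QHom M N => g.f0 (vM0 (FM.ofK 1))) h
    have h3 : ((f w).comp (pt0 M m)).f0 (vM0 (FM.ofK 1)) = (f w).f0 m := congrArg (f w).f0 (pt0_f0 M m)
    exact (h2.trans h3).symm
  have e1 : ∀ (w : QHom M N) (m : V), (f w).f1 m = a1 (w.f1 m) := by
    intro w m
    have h := hf (pt1 M m) w
    rw [comp_pt1] at h
    have h2 := congrArg (fun g : QHom M N => g.f1 (eV 0)) h
    have h3 : ((f w).comp (pt1 M m)).f1 (eV 0) = (f w).f1 m := congrArg (f w).f1 (pt1_f1 M m)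
    exact (h2.trans h3).symm
  have e2 : ∀ (w : QHom M N) (m : M2), (f w).f2 m = a2 (w.f2 m) := by
    intro w m
    have h := hf (pt2 M m) w
    rw [comp_pt2] at h
    have h2 := congrArg (fun g : QHom M N => g.f2 (vM2 (eV 0))) h
    have h3 : ((f w).comp (pt2 M m)).f2 (vM2 (eV 0)) = (f w).f2 m := congrArg (f w).f2 (pt2_f2 M m)
    exact (h2.trans h3).symm
  have e3 : ∀ (w : QHom M N) (m : M3), (f w).f3 m = a3 (w.f3 m) := by
    intro w m
    have h := hf (pt3 M m) w
    rw [comp_pt3] at h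
    have h2 := congrArg (fun g : QHom M N => g.f3 (vM3 (eV 0))) h
    have h3 : ((f w).comp (pt3 M m)).f3 (vM3 (eV 0)) = (f w).f3 m := congrArg (f w).f3 (pt3_f3 M m)
    exact (h2.trans h3).symm
  have e4 : ∀ (w : QHom M N) (m : V), (f w).f4 m = a4 (w.f4 m) := by
    intro w m
    have h := hf (pt4 M m) w
    rw [comp_pt4] at h
    have h2 := congrArg (fun g : QHom M N => g.f4 (eV 0)) h
    have h3 : ((f w).comp (pt4 M m)).f4 (eV 0) = (f w).f4 m := congrArg (f w).f4 (pt4_f4 M m)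
    exact (h2.trans h3).symm
  refine ⟨⟨a0, a1, a2, a3, a4, ?_, ?_, ?_, ?_, ?_, ?_, ?_⟩, ?_⟩
  · intro l x
    have h1 : N.b l x = (pt1 N x).f2 (bM l (eV 0)) := by rw [(pt1 N x).hb l (eV 0), pt1_f1]
    rw [h1, ← e2, (f (pt1 N x)).hb l (eV 0), e1, pt1_f1]
  · intro x
    have h1 : N.r x = (pt4 N x).f2 (rM (eV 0)) := by rw [(pt4 N x).hr (eV 0), pt4_f4]
    rw [h1, ← e2, (f (pt4 N x)).hr (eV 0), e4, pt4_f4]
  · intro x
    have h1 : N.lam x = (pt1 N x).f0 (lamM (eV 0)) := by rw [(pt1 N x).hlam (eV 0), pt1_f1]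
    rw [h1, ← e0, (f (pt1 N x)).hlam (eV 0), e1, pt1_f1]
  · intro x
    have h1 : N.al x = (pt2 N x).f0 (alM (vM2 (eV 0))) := by rw [(pt2 N x).hal (vM2 (eV 0)), pt2_f2]
    rw [h1, ← e0, (f (pt2 N x)).hal (vM2 (eV 0)), e2, pt2_f2]
  · intro i j x
    have h1 : N.a i j x = (pt1 N x).f3 (aM i j (eV 0)) := by rw [(pt1 N x).ha i j (eV 0), pt1_f1]
    rw [h1, ← e3, (f (pt1 N x)).ha i j (eV 0), e1, pt1_f1]
  · intro i j x
    have h1 : N.c i j x = (pt2 N x).f3 (cM i j (vM2 (eV 0))) := by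
      rw [(pt2 N x).hc i j (vM2 (eV 0)), pt2_f2]
    rw [h1, ← e3, (f (pt2 N x)).hc i j (vM2 (eV 0)), e2, pt2_f2]
  · intro i x
    have h1 : N.u i x = (pt4 N x).f3 (uM i (eV 0)) := by rw [(pt4 N x).hu i (eV 0), pt4_f4]
    rw [h1, ← e3, (f (pt4 N x)).hu i (eV 0), e4, pt4_f4]
  · intro w
    exact QHom.ext (LinearMap.ext (e0 w)) (LinearMap.ext (e1 w)) (LinearMap.ext (e2 w)) (LinearMap.ext (e3 w))
      (LinearMap.ext (e4 w))

/-- faithfulness of post-composition -/
theorem faith {N N' : QRep} (a : QHom N N') (ha : ∀ w : QHom M N, a.comp w = 0) : a = 0 := by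
  refine QHom.ext ?_ ?_ ?_ ?_ ?_
  · ext x
    have h := congrArg (fun g : QHom M N' => g.f0 (vM0 (FM.ofK 1))) (ha (pt0 N x))
    rw [comp_pt0] at h
    exact (pt0_f0 N' _).symm.trans h
  · ext x
    have h := congrArg (fun g : QHom M N' => g.f1 (eV 0)) (ha (pt1 N x))
    rw [comp_pt1] at h
    exact (pt1_f1 N' _).symm.trans h
  · ext x
    have h := congrArg (fun g : QHom M N' => g.f2 (vM2 (eV 0))) (ha (pt2 N x))
    rw [comp_pt2] at h
    exact (pt2_f2 N' _).symm.trans h
  · ext x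
    have h := congrArg (fun g : QHom M N' => g.f3 (vM3 (eV 0))) (ha (pt3 N x))
    rw [comp_pt3] at h
    exact (pt3_f3 N' _).symm.trans h
  · ext x
    have h := congrArg (fun g : QHom M N' => g.f4 (eV 0)) (ha (pt4 N x))
    rw [comp_pt4] at h
    exact (pt4_f4 N' _).symm.trans h

/-- From commuting with the units to commuting with `MM`. -/
theorem comm_of_units {N : QRep} (hspan : AddSubgroup.closure (Set.range (Units.val : MMˣ → MM)) = ⊤)
    (f : QHom M N →+ QHom M N) (hf : ∀ (o : MMˣ) (w : QHom M N), f (w.comp (o : MM)) = (f w).comp (o : MM))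
    (γ : MM) (w : QHom M N) : f (w.comp γ) = (f w).comp γ := by
  have hγ : γ ∈ AddSubgroup.closure (Set.range (Units.val : MMˣ → MM)) := by
    rw [hspan]
    exact AddSubgroup.mem_top γ
  refine AddSubgroup.closure_induction (p := fun γ _ => f (w.comp γ) = (f w).comp γ) ?_ ?_ ?_ ?_ hγ
  · rintro _ ⟨o, rfl⟩
    exact hf o w
  · rw [QHom.comp_zero, QHom.comp_zero, map_zero]
  · intro x y _ _ hx hy
    rw [QHom.comp_add, QHom.comp_add, map_add, hx, hy]
  · intro x _ hx
    have h1 : ∀ v : QHom M N, v.comp (-x) = -(v.comp x) := by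
      intro v
      rw [eq_neg_iff_add_eq_zero, ← QHom.comp_add, neg_add_cancel, QHom.comp_zero]
    rw [h1, h1, map_neg, hx]

theorem endW_of {N : QRep} (hspan : AddSubgroup.closure (Set.range (Units.val : MMˣ → MM)) = ⊤)
    (f : QHom M N →+ QHom M N) (hf : ∀ (o : MMˣ) (w : QHom M N), f (w.comp (o : MM)) = (f w).comp (o : MM)) :
    ∃ a : QHom N N, ∀ w, f w = a.comp w :=
  endo_of f (comm_of_units hspan f hf)

/-! ### `Mp` and `Rp` -/

/-- the restriction `MM → End(Mp)` -/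
def resM : MM →+* QHom Mp Mp where
  toFun γ :=
    { f0 := 0, f1 := γ.f1, f2 := γ.f2, f3 := γ.f3, f4 := γ.f4
      hb := γ.hb
      hr := γ.hr
      hlam := fun _ => rfl
      hal := fun _ => rfl
      ha := γ.ha
      hc := γ.hc
      hu := γ.hu }
  map_one' := QHom.ext (FM.to_Z_eq _ _) rfl rfl rfl rfl
  map_mul' _ _ := QHom.ext (FM.to_Z_eq _ _) rfl rfl rfl rfl
  map_zero' := QHom.ext (FM.to_Z_eq _ _) rfl rfl rfl rfl
  map_add' _ _ := QHom.ext (FM.to_Z_eq _ _) rfl rfl rfl rfl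

/-- `QHom Mp Rp = QHom M Rp` -/
noncomputable def toP : QHom M Rp ≃+ QHom Mp Rp where
  toFun f :=
    { f0 := 0, f1 := f.f1, f2 := f.f2, f3 := f.f3, f4 := f.f4
      hb := f.hb
      hr := f.hr
      hlam := fun _ => rfl
      hal := fun _ => rfl
      ha := f.ha
      hc := f.hc
      hu := f.hu }
  invFun f :=
    { f0 := 0, f1 := f.f1, f2 := f.f2, f3 := f.f3, f4 := f.f4
      hb := f.hb
      hr := f.hr
      hlam := fun _ => rfl
      hal := fun _ => rfl
      ha := f.ha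
      hc := f.hc
      hu := f.hu }
  left_inv _ := QHom.ext (FM.to_Z_eq _ _) rfl rfl rfl rfl
  right_inv _ := QHom.ext (FM.to_Z_eq _ _) rfl rfl rfl rfl
  map_add' _ _ := QHom.ext (FM.to_Z_eq _ _) rfl rfl rfl rfl

theorem toP_comp (w : QHom M Rp) (γ : MM) : toP (w.comp γ) = (toP w).comp (resM γ) :=
  QHom.ext (FM.to_Z_eq _ _) rfl rfl rfl rfl

theorem toP_comp' (a : QHom Rp Rp) (w : QHom M Rp) : toP (a.comp w) = a.comp (toP w) :=
  QHom.ext (FM.to_Z_eq _ _) rfl rfl rfl rfl

/-- (2) `endQ`: additive maps of `QHom Mp Rp` commuting with the units of `MM` are post-compositions. -/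
theorem endQ_of (hspan : AddSubgroup.closure (Set.range (Units.val : MMˣ → MM)) = ⊤)
    (f : QHom Mp Rp →+ QHom Mp Rp)
    (hf : ∀ (o : MMˣ) (w : QHom Mp Rp), f (w.comp (resM (o : MM))) = (f w).comp (resM (o : MM))) :
    ∃ a : QHom Rp Rp, ∀ w, f w = a.comp w := by
  obtain ⟨a, ha⟩ := endW_of hspan ((toP.symm.toAddMonoidHom.comp f).comp toP.toAddMonoidHom) (by
    intro o w
    apply toP.injective
    show toP (toP.symm (f (toP (w.comp (o : MM))))) = toP ((toP.symm (f (toP w))).comp (o : MM))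
    rw [toP.apply_symm_apply, toP_comp, toP_comp, hf, toP.apply_symm_apply])
  refine ⟨a, fun w => ?_⟩
  have h := congrArg toP (ha (toP.symm w))
  have h2 : toP (toP.symm (f (toP (toP.symm w)))) = a.comp (toP (toP.symm w)) := h.trans (toP_comp' a _)
  rw [toP.apply_symm_apply, toP.apply_symm_apply] at h2
  exact h2

/-- `faithQ` -/
theorem faithQ_of (a : QHom Rp Rp) (ha : ∀ w : QHom Mp Rp, a.comp w = 0) : a = 0 := by
  apply faith
  intro w
  apply toP.injective
  rw [toP_comp', ha, map_zero]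

end QF46
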