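import Pool.Agent.Helper70.QA.Fun

/-!
PROJECT AUT (MP_19fde8_al, S00834), block A: homomorphisms out of the free representation `M`.

`hm N x0 g1 g2 g3 g4 : QHom M N` is the homomorphism with prescribed values on the generators.
-/

set_option autoImplicit false

namespace QF46

open QA70

/-! ### sums over powers -/

section psum
variable {ι : Type} [Fintype ι] [DecidableEq ι] {A B C : FM}

/-- the map out of a power with prescribed coordinate maps -/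
noncomputable def psum (f : ι → (A →ₗ[k] B)) : FM.pow ι A →ₗ[k] B := ∑ i, f i ∘ₗ FM.proj i

omit [DecidableEq ι] in
theorem psum_apply (f : ι → (A →ₗ[k] B)) (x : FM.pow ι A) : psum f x = ∑ i, f i (FM.proj i x) := by
  rw [psum, LinearMap.sum_apply]
  rfl

@[simp] theorem psum_single (f : ι → (A →ₗ[k] B)) (i : ι) (a : A) : psum f (FM.single i a) = f i a := by
  rw [psum_apply, Finset.sum_eq_single i]
  · rw [FM.proj_single_same]
  · intro j _ hj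
    rw [FM.proj_single_ne hj, map_zero]
  · intro h
    exact absurd (Finset.mem_univ i) h

omit [DecidableEq ι] in
theorem psum_add (f g : ι → (A →ₗ[k] B)) : psum (fun i => f i + g i) = psum f + psum g := by
  rw [psum, psum, psum, ← Finset.sum_add_distrib]
  rfl

end psum

attribute [irreducible] psum

/-! ### the homomorphism with prescribed values on the generators -/

section hm
variable (N : QRep)

/-- the map on `M_2` -/
noncomputable def hm2 (g1 : V →ₗ[k] N.U1) (g2 : V →ₗ[k] N.U2) (g4 : V →ₗ[k] N.U4) : M2 →ₗ[k] N.U2 :=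
  g2 ∘ₗ FM.fst + psum (fun l => N.b l ∘ₗ g1) ∘ₗ FM.fst ∘ₗ FM.snd + (N.r ∘ₗ g4) ∘ₗ FM.snd ∘ₗ FM.snd

variable (g1 : V →ₗ[k] N.U1) (g2 : V →ₗ[k] N.U2) (g3 : V →ₗ[k] N.U3) (g4 : V →ₗ[k] N.U4) (x0 : N.U0)

theorem hm2_mk (v : V) (w : FM.pow (Fin 3) V) (t : V) :
    hm2 N g1 g2 g4 (M2.mk v w t) = g2 v + psum (fun l => N.b l ∘ₗ g1) w + N.r (g4 t) := rfl

theorem hm2_v (v : V) : hm2 N g1 g2 g4 (vM2 v) = g2 v := by
  rw [vM2_apply, hm2_mk, map_zero, map_zero, map_zero, add_zero, add_zero]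

theorem hm2_b (l : Fin 3) (v : V) : hm2 N g1 g2 g4 (bM l v) = N.b l (g1 v) := by
  rw [bM_apply, hm2_mk, map_zero, map_zero, map_zero, psum_single, zero_add, add_zero]
  rfl

theorem hm2_r (v : V) : hm2 N g1 g2 g4 (rM v) = N.r (g4 v) := by
  rw [rM_apply, hm2_mk, map_zero, map_zero, zero_add, zero_add]

/-- the map on `M_3` -/
noncomputable def hm3 : M3 →ₗ[k] N.U3 :=
  g3 ∘ₗ FM.fst + psum (fun ij : Fin dd × Fin 2 => N.a ij.1 ij.2 ∘ₗ g1) ∘ₗ FM.fst ∘ₗ FM.snd +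
    psum (fun ij : Fin dd × Fin 2 => N.c ij.1 ij.2 ∘ₗ hm2 N g1 g2 g4) ∘ₗ FM.fst ∘ₗ FM.snd ∘ₗ FM.snd +
    psum (fun i : Fin dd => N.u i ∘ₗ g4) ∘ₗ FM.snd ∘ₗ FM.snd ∘ₗ FM.snd

theorem hm3_mk (v : V) (x : FM.pow (Fin dd × Fin 2) V) (y : FM.pow (Fin dd × Fin 2) M2)
    (z : FM.pow (Fin dd) V) : hm3 N g1 g2 g3 g4 (M3.mk v x y z) =
      g3 v + psum (fun ij : Fin dd × Fin 2 => N.a ij.1 ij.2 ∘ₗ g1) x +
      psum (fun ij : Fin dd × Fin 2 => N.c ij.1 ij.2 ∘ₗ hm2 N g1 g2 g4) y +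
      psum (fun i : Fin dd => N.u i ∘ₗ g4) z := rfl

theorem hm3_v (v : V) : hm3 N g1 g2 g3 g4 (vM3 v) = g3 v := by
  rw [vM3_apply, hm3_mk]
  simp

theorem hm3_a (i : Fin dd) (j : Fin 2) (v : V) : hm3 N g1 g2 g3 g4 (aM i j v) = N.a i j (g1 v) := by
  rw [aM_apply, hm3_mk, psum_single]
  simp

theorem hm3_c (i : Fin dd) (j : Fin 2) (m : M2) :
    hm3 N g1 g2 g3 g4 (cM i j m) = N.c i j (hm2 N g1 g2 g4 m) := by
  rw [cM_apply, hm3_mk, psum_single]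
  simp

theorem hm3_u (i : Fin dd) (v : V) : hm3 N g1 g2 g3 g4 (uM i v) = N.u i (g4 v) := by
  rw [uM_apply, hm3_mk, psum_single]
  simp

/-- the map on `M_0` -/
noncomputable def hm0 : M0 →ₗ[k] N.U0 :=
  (LinearMap.toSpanSingleton k N.U0 x0) ∘ₗ FM.toK ∘ₗ FM.fst + (N.lam ∘ₗ g1) ∘ₗ FM.fst ∘ₗ FM.snd +
    (N.al ∘ₗ hm2 N g1 g2 g4) ∘ₗ FM.snd ∘ₗ FM.snd

theorem hm0_mk (c : FM.K) (v : V) (m : M2) : hm0 N g1 g2 g4 x0 (M0.mk c v m) =
    FM.toK c • x0 + N.lam (g1 v) + N.al (hm2 N g1 g2 g4 m) := rfl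

theorem hm0_v (c : FM.K) : hm0 N g1 g2 g4 x0 (vM0 c) = FM.toK c • x0 := by
  rw [vM0_apply, hm0_mk]
  simp

theorem hm0_lam (v : V) : hm0 N g1 g2 g4 x0 (lamM v) = N.lam (g1 v) := by
  rw [lamM_apply, hm0_mk]
  simp

theorem hm0_al (m : M2) : hm0 N g1 g2 g4 x0 (alM m) = N.al (hm2 N g1 g2 g4 m) := by
  rw [alM_apply, hm0_mk]
  simp

/-- the homomorphism `M → N` with prescribed values on the generators -/
noncomputable def hm : QHom M N where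
  f0 := hm0 N g1 g2 g4 x0
  f1 := g1
  f2 := hm2 N g1 g2 g4
  f3 := hm3 N g1 g2 g3 g4
  f4 := g4
  hb := fun l v => hm2_b N g1 g2 g4 l v
  hr := fun v => hm2_r N g1 g2 g4 v
  hlam := fun v => hm0_lam N g1 g2 g4 x0 v
  hal := fun m => hm0_al N g1 g2 g4 x0 m
  ha := fun i j v => hm3_a N g1 g2 g3 g4 i j v
  hc := fun i j m => hm3_c N g1 g2 g3 g4 i j m
  hu := fun i v => hm3_u N g1 g2 g3 g4 i v

@[simp] theorem hm_f0_v (c : FM.K) : (hm N g1 g2 g3 g4 x0).f0 (vM0 c) = FM.toK c • x0 := hm0_v N g1 g2 g4 x0 c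
@[simp] theorem hm_f1 : (hm N g1 g2 g3 g4 x0).f1 = g1 := rfl
@[simp] theorem hm_f2_v (v : V) : (hm N g1 g2 g3 g4 x0).f2 (vM2 v) = g2 v := hm2_v N g1 g2 g4 v
@[simp] theorem hm_f3_v (v : V) : (hm N g1 g2 g3 g4 x0).f3 (vM3 v) = g3 v := hm3_v N g1 g2 g3 g4 v
@[simp] theorem hm_f4 : (hm N g1 g2 g3 g4 x0).f4 = g4 := rfl

end hm

/-! ### extensionality -/

theorem M2_ext {A : FM} {f g : M2 →ₗ[k] A} (hv : ∀ v, f (vM2 v) = g (vM2 v))
    (hb : ∀ l v, f (bM l v) = g (bM l v)) (hr : ∀ v, f (rM v) = g (rM v)) : f = g := by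
  apply FM.hom_prod_ext hv
  intro y
  have h1 : f ∘ₗ FM.inr = g ∘ₗ FM.inr := by
    apply FM.hom_prod_ext
    · intro w
      have h2 : (f ∘ₗ FM.inr) ∘ₗ FM.inl = (g ∘ₗ FM.inr) ∘ₗ (FM.inl : FM.pow (Fin 3) V →ₗ[k] FM.prod (FM.pow (Fin 3) V) V) := by
        apply FM.hom_pow_ext
        exact hb
      exact LinearMap.congr_fun h2 w
    · exact hr
  exact LinearMap.congr_fun h1 y

theorem M3_ext {A : FM} {f g : M3 →ₗ[k] A} (hv : ∀ v, f (vM3 v) = g (vM3 v))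
    (ha : ∀ i j v, f (aM i j v) = g (aM i j v)) (hc : ∀ i j m, f (cM i j m) = g (cM i j m))
    (hu : ∀ i v, f (uM i v) = g (uM i v)) : f = g := by
  apply FM.hom_prod_ext hv
  intro y
  have h1 : f ∘ₗ FM.inr = g ∘ₗ FM.inr := by
    apply FM.hom_prod_ext
    · intro w
      have h2 : (f ∘ₗ FM.inr) ∘ₗ FM.inl = (g ∘ₗ FM.inr) ∘ₗ FM.inl := by
        apply FM.hom_pow_ext
        rintro ⟨i, j⟩ v
        exact ha i j v
      exact LinearMap.congr_fun h2 w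
    · intro w
      have h2 : (f ∘ₗ FM.inr) ∘ₗ FM.inr = (g ∘ₗ FM.inr) ∘ₗ FM.inr := by
        apply FM.hom_prod_ext
        · intro x
          have h3 : ((f ∘ₗ FM.inr) ∘ₗ FM.inr) ∘ₗ FM.inl = ((g ∘ₗ FM.inr) ∘ₗ FM.inr) ∘ₗ FM.inl := by
            apply FM.hom_pow_ext
            rintro ⟨i, j⟩ m
            exact hc i j m
          exact LinearMap.congr_fun h3 x
        · intro x
          have h3 : ((f ∘ₗ FM.inr) ∘ₗ FM.inr) ∘ₗ FM.inr = ((g ∘ₗ FM.inr) ∘ₗ FM.inr) ∘ₗ FM.inr := by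
            apply FM.hom_pow_ext
            intro i v
            exact hu i v
          exact LinearMap.congr_fun h3 x
      exact LinearMap.congr_fun h2 w
  exact LinearMap.congr_fun h1 y

theorem M0_ext {A : FM} {f g : M0 →ₗ[k] A} (hv : f (vM0 (FM.ofK 1)) = g (vM0 (FM.ofK 1)))
    (hl : ∀ v, f (lamM v) = g (lamM v)) (ha : ∀ m, f (alM m) = g (alM m)) : f = g := by
  apply FM.hom_prod_ext
  · intro c
    have h1 : (FM.mk c 0 : M0) = FM.toK c • vM0 (FM.ofK 1) := by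
      have h2 : (FM.toK c • vM0 (FM.ofK 1) : M0) = vM0 (FM.toK c • FM.ofK 1) := by rw [map_smul]
      have h3 : (FM.toK c • FM.ofK 1 : FM.K) = c := by
        show (FM.toK c * 1 : k) = c
        rw [mul_one]
        rfl
      rw [h2, h3]
      rfl
    rw [h1, map_smul, map_smul, hv]
  · intro y
    have h1 : f ∘ₗ FM.inr = g ∘ₗ FM.inr := FM.hom_prod_ext hl ha
    exact LinearMap.congr_fun h1 y

/-- Homomorphisms out of `M` agree if they agree on the generators. -/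
theorem M_ext {N : QRep} {f g : QHom M N} (h0 : f.f0 (vM0 (FM.ofK 1)) = g.f0 (vM0 (FM.ofK 1)))
    (h1 : ∀ v, f.f1 v = g.f1 v) (h2 : ∀ v, f.f2 (vM2 v) = g.f2 (vM2 v))
    (h3 : ∀ v, f.f3 (vM3 v) = g.f3 (vM3 v)) (h4 : ∀ v, f.f4 v = g.f4 v) : f = g := by
  have e2 : f.f2 = g.f2 := M2_ext h2 (fun l v => by rw [f.hb l v, g.hb l v, h1])
    (fun v => by rw [f.hr v, g.hr v, h4])
  refine QHom.ext ?_ (LinearMap.ext h1) e2 ?_ (LinearMap.ext h4)
  · exact M0_ext h0 (fun v => by rw [f.hlam v, g.hlam v, h1]) (fun m => by rw [f.hal m, g.hal m, e2])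
  · exact M3_ext h3 (fun i j v => by rw [f.ha i j v, g.ha i j v, h1])
      (fun i j m => by rw [f.hc i j m, g.hc i j m, e2]) (fun i v => by rw [f.hu i v, g.hu i v, h4])

/-- every homomorphism out of `M` is an `hm` -/
theorem eq_hm {N : QRep} (f : QHom M N) :
    f = hm N f.f1 (f.f2 ∘ₗ vM2) (f.f3 ∘ₗ vM3) f.f4 (f.f0 (vM0 (FM.ofK 1))) := by
  apply M_ext
  · rw [hm_f0_v]
    show _ = (1 : k) • _
    rw [one_smul]
  · intro v
    rfl
  · intro v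
    rw [hm_f2_v]
    rfl
  · intro v
    rw [hm_f3_v]
    rfl
  · intro v
    rfl

theorem hm_add (N : QRep) (g1 g1' : V →ₗ[k] N.U1) (g2 g2' : V →ₗ[k] N.U2) (g3 g3' : V →ₗ[k] N.U3)
    (g4 g4' : V →ₗ[k] N.U4) (x0 x0' : N.U0) :
    hm N (g1 + g1') (g2 + g2') (g3 + g3') (g4 + g4') (x0 + x0') =
      hm N g1 g2 g3 g4 x0 + hm N g1' g2' g3' g4' x0' := by
  apply M_ext
  · rw [hm_f0_v, QHom.add_f0, LinearMap.add_apply, hm_f0_v, hm_f0_v, smul_add]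
  · intro v
    rfl
  · intro v
    rw [hm_f2_v, QHom.add_f2, LinearMap.add_apply, LinearMap.add_apply, hm_f2_v, hm_f2_v]
  · intro v
    rw [hm_f3_v, QHom.add_f3, LinearMap.add_apply, LinearMap.add_apply, hm_f3_v, hm_f3_v]
  · intro v
    rfl

theorem hm_zero (N : QRep) : hm N 0 0 0 0 0 = 0 := by
  apply M_ext
  · rw [hm_f0_v, smul_zero]
    rfl
  · intro v
    rfl
  · intro v
    rw [hm_f2_v]
    rfl
  · intro v
    rw [hm_f3_v]
    rfl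
  · intro v
    rfl

/-- composition with a homomorphism -/
theorem comp_hm {N N' : QRep} (a : QHom N N') (g1 : V →ₗ[k] N.U1) (g2 : V →ₗ[k] N.U2)
    (g3 : V →ₗ[k] N.U3) (g4 : V →ₗ[k] N.U4) (x0 : N.U0) :
    a.comp (hm N g1 g2 g3 g4 x0) = hm N' (a.f1 ∘ₗ g1) (a.f2 ∘ₗ g2) (a.f3 ∘ₗ g3) (a.f4 ∘ₗ g4) (a.f0 x0) := by
  apply M_ext
  · rw [hm_f0_v, QHom.comp_f0, LinearMap.comp_apply, hm_f0_v, map_smul]
  · intro v
    rfl
  · intro v
    rw [hm_f2_v, QHom.comp_f2, LinearMap.comp_apply, hm_f2_v]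
    rfl
  · intro v
    rw [hm_f3_v, QHom.comp_f3, LinearMap.comp_apply, hm_f3_v]
    rfl
  · intro v
    rfl

end QF46
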